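import Pool.Agent.helper17.MK.Spec

/-!
# Row MA (MP_bf63dc_nt): the model for XA
-/

set_option autoImplicit false

namespace Pool.Agent.MK

open Finset Real Pool.Agent.helper39.MT Pool.Agent.helper85.FC

theorem MA_one_le_prod {α : Type} (s : Finset α) (f : α → ℝ) (h : ∀ p ∈ s, 1 ≤ f p) :
    1 ≤ ∏ p ∈ s, f p := Finset.one_le_prod fun p hp => h p hp

theorem MA_sum_le {α : Type} (s : Finset α) (q : α → ℝ) (hq : ∀ p ∈ s, 0 ≤ q p) :
    ∑ p ∈ s, q p ≤ ∏ p ∈ s, (1 + q p) := by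
  classical
  induction s using Finset.induction_on with
  | empty => simp
  | insert p s hp ih =>
    rw [sum_insert hp, prod_insert hp]
    have h1 := ih fun x hx => hq x (mem_insert_of_mem hx)
    have h2 := hq p (mem_insert_self p s)
    have h3 : 1 ≤ ∏ x ∈ s, (1 + q x) := MA_one_le_prod _ _ fun x hx => by
      have := hq x (mem_insert_of_mem hx)
      linarith
    nlinarith

theorem MA_prod_subset {α : Type} [DecidableEq α] {s t : Finset α} (hst : s ⊆ t) (f : α → ℝ)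
    (h : ∀ p ∈ t, 1 ≤ f p) : ∏ p ∈ s, f p ≤ ∏ p ∈ t, f p := by
  rw [← prod_sdiff hst]
  have h1 : 1 ≤ ∏ p ∈ t \ s, f p := MA_one_le_prod _ _ fun p hp => h p (mem_sdiff.1 hp).1
  have h2 : 1 ≤ ∏ p ∈ s, f p := MA_one_le_prod _ _ fun p hp => h p (hst hp)
  nlinarith

theorem MA_mu_sum {k : ℕ} (m : Fin k) (p : ℝ) : ∑ x, mu1 m p x = 1 := by
  rw [Fintype.sum_option]
  have h1 : ∀ i : Fin k, mu1 m p (some i) = 1 / (p - 1) - if i = m then 1 / (p - 1) else 0 := by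
    intro i
    show (if i = m then (0 : ℝ) else 1 / (p - 1)) = _
    split_ifs
    · ring
    · ring
  rw [sum_congr rfl fun i _ => h1 i, sum_sub_distrib, sum_const, sum_ite_eq']
  rw [if_pos (mem_univ m), card_univ, Fintype.card_fin, nsmul_eq_mul]
  show (1 - ((k : ℝ) - 1) / (p - 1)) + _ = 1
  ring

theorem MA_Ex_nonneg {ι : Type} [Fintype ι] [DecidableEq ι] {k : ℕ} (μ : ι → Option (Fin k) → ℝ)
    (H : (ι → Option (Fin k)) → ℝ) (hμ : ∀ p x, 0 ≤ μ p x) (hH : ∀ e, 0 ≤ H e) : 0 ≤ Ex μ H := by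
  unfold Ex
  exact sum_nonneg fun e _ => mul_nonneg (prod_nonneg fun p _ => hμ p _) (hH e)

/-- The estimates for the products over the places. -/
theorem MA_place {k D₀ W R : ℕ} (hD : 4 * k + 4 ≤ D₀)
    (hDW : ∀ p : ℕ, p.Prime → p ≤ D₀ → p ∣ W) (p : PS W R) :
    (p : ℕ).Prime ∧ ¬ (p : ℕ) ∣ W ∧ (p : ℕ) ≤ R ∧ 4 * k + 5 ≤ (p : ℕ) := by
  have h := mem_PS.1 p.2
  refine ⟨h.2.1, h.2.2, h.1, ?_⟩
  by_contra hc
  exact h.2.2 (hDW p h.2.1 (by omega))

theorem MA_prod_le {W R : ℕ} {N : ℕ} (hp : ∀ p : PS W R, 2 ≤ (p : ℕ)) {h : ℝ} (h0 : 0 ≤ h)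
    (hN : h ≤ N) : 1 ≤ ∏ p : PS W R, (1 + h * (1 / (((p : ℕ) : ℝ) - 1))) ∧
    ∏ p : PS W R, (1 + h * (1 / (((p : ℕ) : ℝ) - 1))) ≤
      ∏ p : PS W R, (1 + (N : ℝ) / (((p : ℕ) : ℝ) - 1)) := by
  have hq : ∀ p : PS W R, 0 ≤ 1 / (((p : ℕ) : ℝ) - 1) := by
    intro p
    have h2 : (2 : ℝ) ≤ ((p : ℕ) : ℝ) := by exact_mod_cast hp p
    exact div_nonneg zero_le_one (by linarith)
  constructor
  · exact MA_one_le_prod _ _ fun p _ => by
      have := mul_nonneg h0 (hq p)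
      linarith
  · refine prod_le_prod (fun p _ => ?_) fun p _ => ?_
    · have := mul_nonneg h0 (hq p)
      linarith
    · have h1 := mul_le_mul_of_nonneg_right hN (hq p)
      rw [mul_one_div] at h1 ⊢
      rw [mul_one_div] at h1
      linarith

/-- The main computation, when all parameters are fixed. -/
theorem MA_core (h1 : EV_stmt) (h2 : IN_stmt) (h3 : CE_stmt) (h4 : RZ_stmt) (h5 : FA_stmt)
    (h7 : QB_stmt) (h8 : XE_stmt) (h9 : SD_stmt) {k b D₀ W R : ℕ} {ep a w B : ℝ} (hk : 2 ≤ k)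
    (hep : 0 ≤ ep) (hep1 : ep ≤ 1) (hW : 0 < W) (hD : 4 * k + 4 ≤ D₀)
    (hDW : ∀ p : ℕ, p.Prime → p ≤ D₀ → p ∣ W) (ha : 0 ≤ a) (hw1 : 1 ≤ w) (hWw : (W : ℝ) ≤ w)
    (hwR : ⌊w⌋₊ ≤ R) (hPR : ⌊Real.exp (a / 5)⌋₊ ≤ R)
    (hB : ∏ p : PS W R, (1 + ((36 * k + 8 : ℕ) : ℝ) / (((p : ℕ) : ℝ) - 1)) = B)
    (ζ : (PS W R → Option (Fin k)) → ℝ) (m m' : Fin k) (l₀ l : Finset ℕ → ℝ) (P : Finset ℕ)
    (U : ℝ) (hmm : m ≠ m') (hζM : ∀ σ, |ζ σ| ≤ a ^ 3)
    (hζ : ∀ σ, ζ σ ≠ 0 → (dd (prP W R) σ : ℝ) ≤ Real.exp a ∧ ∀ p, σ p ≠ some m ∧ σ p ≠ some m')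
    (hBH : BHW ep b w l₀) (hP : P ⊆ RLS.PP w (Real.exp (a / 5))) (hl : ∀ K ⊆ P, |l K| ≤ 1)
    (hU : 0 ≤ U) (hMU : Mn l gi P ≤ U) :
    Ex (fun p : PS W R => mu1 m (p : ℝ)) (XA (prP W R) ζ l₀ l w P m m') ≤
      (1 + ep) * (∏ p ∈ PS W ⌊w⌋₊, (1 - 1 / ((p : ℝ) - 1))) * QF (prP W R) ζ * U +
        (2 * k + 4) * (a ^ 6 * B ^ 5) / w := by
  classical
  have hw0 : 0 < w := by linarith
  have hpl := MA_place (R := R) hD hDW
  have hp2 : ∀ p : PS W R, 2 ≤ (p : ℕ) := fun p => by have := (hpl p).2.2.2; omega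
  have hpR : ∀ p : PS W R, (4 * (k : ℝ) + 5) ≤ ((p : ℕ) : ℝ) := fun p => by
    exact_mod_cast (hpl p).2.2.2
  have hk2 : (2 : ℝ) ≤ k := by exact_mod_cast hk
  set q : PS W R → ℝ := fun p => 1 / (((p : ℕ) : ℝ) - 1) with hq
  have hq0 : ∀ p, 0 ≤ q p := by
    intro p
    have := hpR p
    exact div_nonneg zero_le_one (by linarith)
  have hinj : Function.Injective (prP W R) := fun x y h => Subtype.ext h
  set μ : PS W R → Option (Fin k) → ℝ := fun p => mu1 m (p : ℝ) with hμ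
  have hμn : ∀ p, μ p none = 1 - ((k : ℝ) - 1) / (((p : ℕ) : ℝ) - 1) := fun p => rfl
  have hμs : ∀ p i, μ p (some i) = if i = m then 0 else 1 / (((p : ℕ) : ℝ) - 1) := fun p i => rfl
  have hμn0 : ∀ p, 0 < μ p none := by
    intro p
    rw [hμn]
    have h := hpR p
    rw [sub_pos, div_lt_one (by linarith)]
    linarith
  have hμ0 : ∀ p x, 0 ≤ μ p x := by
    intro p x
    cases x with
    | none => exact (hμn0 p).le
    | some i =>
      rw [hμs]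
      split_ifs
      · exact le_rfl
      · exact hq0 p
  have hB0 : 1 ≤ B := by
    rw [← hB]
    exact MA_one_le_prod _ _ fun p _ => by
      have h := hpR p
      have : 0 ≤ ((36 * k + 8 : ℕ) : ℝ) / (((p : ℕ) : ℝ) - 1) :=
        div_nonneg (Nat.cast_nonneg _) (by linarith)
      linarith
  have hprod : ∀ h : ℝ, 0 ≤ h → h ≤ ((36 * k + 8 : ℕ) : ℝ) →
      1 ≤ ∏ p : PS W R, (1 + h * q p) ∧ ∏ p : PS W R, (1 + h * q p) ≤ B := by
    intro h h0 hN
    rw [← hB]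
    exact MA_prod_le hp2 h0 hN
  -- (1) the expansions and independence
  set X₁ : (PS W R → Option (Fin k)) → ℝ :=
    fun e => FF (prP W R) ζ e ^ 2 * SU (prP W R) l₀ (RLS.PP 1 w) m m' e with hX₁
  set X₂ : (PS W R → Option (Fin k)) → ℝ := SU (prP W R) l P m' m' with hX₂
  have hPmem : ∀ n ∈ P, n.Prime ∧ w < (n : ℝ) ∧ n ≤ ⌊Real.exp (a / 5)⌋₊ := by
    intro n hn
    have h := mem_filter.1 (hP hn)
    exact ⟨h.2.1, h.2.2, by have := mem_range.1 h.1; omega⟩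
  have hPPS : P ⊆ PS W R := by
    intro n hn
    obtain ⟨hn1, hn2, hn3⟩ := hPmem n hn
    refine mem_PS.2 ⟨hn3.trans hPR, hn1, fun hd => ?_⟩
    have h := Nat.le_of_dvd hW hd
    have h' : (n : ℝ) ≤ W := by exact_mod_cast h
    linarith
  have hXE := h8 (PS W R) k (prP W R) ζ l₀ l w P ∅ m m' (a ^ 3) (Real.exp a) (w ^ b)
    (∏ p ∈ P, (p : ℝ)) 1 hinj hp2 (by positivity) (Real.one_le_exp ha) (one_le_pow₀ hw1)
    (MA_one_le_prod _ _ fun p hp => by exact_mod_cast (hPmem p hp).1.one_le) le_rfl hζM hζ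
    (fun K _ => ⟨hBH.le1 K, fun hK => (hBH.lev K hK).2⟩)
    (fun K hK => ⟨hl K hK, fun _ => MA_prod_subset hK _ fun p hp => by
      exact_mod_cast (hPmem p hp).1.one_le⟩)
    (fun K hK _ => by
      rw [subset_empty] at hK
      rw [hK, prod_empty])
  obtain ⟨E1, -, E2, -⟩ := hXE
  set S : Finset (PS W R) := univ.filter fun p => w < ((p : ℕ) : ℝ) with hS
  have hIN := h2 (PS W R) k (prP W R) _ _ _ _ _ _ _ _ _ _ μ q S
    (fun p => MA_mu_sum m _) (fun p i => ⟨hμ0 p _, by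
      rw [hμs]
      split_ifs
      · exact hq0 p
      · exact le_rfl⟩) (by positivity) zero_le_one E1 E2 (by
      rintro p i j hi ⟨rfl, hj⟩
      have hjw := (hPmem _ hj).2.1
      refine ⟨?_, mem_filter.2 ⟨mem_univ p, hjw⟩⟩
      rintro rfl
      rcases hi with ⟨-, hi⟩ | ⟨-, hi⟩
      · exact hi rfl
      · have h := mem_filter.1 hi
        have h' : prP W R p ≤ ⌊w⌋₊ := by have := mem_range.1 h.1; omega
        have h'' : ((prP W R p : ℕ) : ℝ) ≤ w := (Nat.le_floor_iff hw0.le).1 h'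
        linarith)
  -- bound of the error
  have hSq : ∀ p ∈ S, q p ≤ 2 / w := by
    intro p hp
    have h := (mem_filter.1 hp).2
    have h' := hpR p
    show 1 / (((p : ℕ) : ℝ) - 1) ≤ 2 / w
    rw [div_le_div_iff₀ (by linarith) hw0]
    linarith
  have hsumq : ∑ p ∈ S, q p ≤ B := by
    have h := (hprod 1 zero_le_one (by push_cast; linarith)).2
    simp only [one_mul] at h
    calc ∑ p ∈ S, q p ≤ ∑ p, q p :=
          sum_le_sum_of_subset_of_nonneg (subset_univ _) fun p _ _ => hq0 p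
      _ ≤ ∏ p, (1 + q p) := MA_sum_le _ _ fun p _ => hq0 p
      _ ≤ B := h
  have hsumS : ∑ p ∈ S, (k * (36 : ℕ) * q p) * (k * (1 : ℕ) * q p) ≤ 2 * k / w * B := by
    have h36 : ∑ p ∈ S, (k * (36 : ℕ) * q p) ≤ B := by
      have h := (hprod (k * (36 : ℕ)) (by positivity) (by push_cast; linarith)).2
      calc ∑ p ∈ S, (k * (36 : ℕ) * q p) ≤ ∑ p, (k * (36 : ℕ) * q p) :=
            sum_le_sum_of_subset_of_nonneg (subset_univ _) fun p _ _ => by
              have := hq0 p; positivity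
        _ ≤ ∏ p, (1 + k * (36 : ℕ) * q p) := MA_sum_le _ _ fun p _ => by
              have := hq0 p; positivity
        _ ≤ B := h
    calc ∑ p ∈ S, (k * (36 : ℕ) * q p) * (k * (1 : ℕ) * q p)
        ≤ ∑ p ∈ S, (k * (36 : ℕ) * q p) * (2 * k / w) := by
          refine sum_le_sum fun p hp => mul_le_mul_of_nonneg_left ?_ (by
            have := hq0 p; positivity)
          have h := hSq p hp
          push_cast
          rw [mul_one]
          calc (k : ℝ) * q p ≤ k * (2 / w) := mul_le_mul_of_nonneg_left h (Nat.cast_nonneg k)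
            _ = 2 * k / w := by ring
      _ = (∑ p ∈ S, (k * (36 : ℕ) * q p)) * (2 * k / w) := by rw [sum_mul]
      _ ≤ B * (2 * k / w) := mul_le_mul_of_nonneg_right h36 (by positivity)
      _ = 2 * k / w * B := by ring
  have herr : (a ^ 3) ^ 2 * (∏ p : PS W R, (1 + (k : ℝ) / (((prP W R p : ℕ) : ℝ) - 1))) ^ 2 * 1 *
      (∏ p, (1 + k * (36 : ℕ) * q p)) * (∏ p, (1 + k * (1 : ℕ) * q p)) *
      ∑ p ∈ S, (k * (36 : ℕ) * q p) * (k * (1 : ℕ) * q p) ≤ 2 * k * (a ^ 6 * B ^ 5) / w := by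
    have e1 := hprod (k * (36 : ℕ)) (by positivity) (by push_cast; linarith)
    have e2 := hprod (k * (1 : ℕ)) (by positivity) (by push_cast; linarith)
    have e3 := hprod k (by positivity) (by push_cast; linarith)
    have e4 : ∏ p : PS W R, (1 + (k : ℝ) / (((prP W R p : ℕ) : ℝ) - 1)) =
        ∏ p : PS W R, (1 + k * q p) := by
      refine prod_congr rfl fun p _ => ?_
      show 1 + (k : ℝ) / (((p : ℕ) : ℝ) - 1) = 1 + k * (1 / (((p : ℕ) : ℝ) - 1))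
      rw [mul_one_div]
    rw [e4]
    have e5 : (∏ p : PS W R, (1 + (k : ℝ) * q p)) ^ 2 ≤ B ^ 2 :=
      pow_le_pow_left₀ (by linarith) e3.2 2
    have hS0 : 0 ≤ ∑ p ∈ S, (k * (36 : ℕ) * q p) * (k * (1 : ℕ) * q p) :=
      sum_nonneg fun p _ => by have := hq0 p; positivity
    calc _ ≤ (a ^ 3) ^ 2 * B ^ 2 * 1 * B * B * (2 * k / w * B) := by
          have t0 : 0 ≤ (a ^ 3) ^ 2 := by positivity
          have t1 : (a ^ 3) ^ 2 * (∏ p : PS W R, (1 + (k : ℝ) * q p)) ^ 2 * 1 ≤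
              (a ^ 3) ^ 2 * B ^ 2 * 1 :=
            mul_le_mul_of_nonneg_right (mul_le_mul_of_nonneg_left e5 t0) zero_le_one
          have t2 := mul_le_mul t1 e1.2 (by linarith) (by positivity)
          have t3 := mul_le_mul t2 e2.2 (by linarith) (by positivity)
          exact mul_le_mul t3 hsumS hS0 (by positivity)
      _ = 2 * k * (a ^ 6 * B ^ 5) / w := by ring
  have hIN' : Ex μ (fun e => X₁ e * X₂ e) ≤ Ex μ X₁ * Ex μ X₂ + 2 * k * (a ^ 6 * B ^ 5) / w := by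
    have h := (le_abs_self _).trans (hIN.trans herr)
    linarith
  -- (2) the expectation of X₂
  set g : ℕ → ℝ := fun n => 1 / ((n : ℝ) - 1) with hg
  have hEV : Ex μ X₂ = Mn l g P := by
    refine h1 (PS W R) k (prP W R) l P m' m' μ g hinj (fun p => MA_mu_sum m _)
      (fun n hn => ⟨⟨n, hPPS hn⟩, rfl⟩) (fun p => ?_)
    rw [if_pos rfl, hμs, if_neg (Ne.symm hmm)]
  have hgi : ∀ p ∈ P, 0 ≤ gi p ∧ gi p ≤ g p ∧ g p - gi p ≤ 2 / w * g p := by
    intro p hp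
    obtain ⟨hp1, hp2', -⟩ := hPmem p hp
    have h2 : (2 : ℝ) ≤ p := by exact_mod_cast hp1.two_le
    have hp1' : (0 : ℝ) < (p : ℝ) - 1 := by linarith
    have hp0' : (0 : ℝ) < (p : ℝ) := by linarith
    refine ⟨by unfold gi; positivity, ?_, ?_⟩
    · show 1 / (p : ℝ) ≤ 1 / ((p : ℝ) - 1)
      exact one_div_le_one_div_of_le hp1' (by linarith)
    · show 1 / ((p : ℝ) - 1) - 1 / (p : ℝ) ≤ 2 / w * (1 / ((p : ℝ) - 1))
      have e1 : 1 / ((p : ℝ) - 1) - 1 / (p : ℝ) = 1 / (p : ℝ) * (1 / ((p : ℝ) - 1)) := by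
        field_simp
        ring
      rw [e1]
      refine mul_le_mul_of_nonneg_right ?_ (by positivity)
      rw [div_le_div_iff₀ hp0' hw0]
      linarith
  have hg1 : ∀ n ∈ PS W R, 0 ≤ g n := by
    intro n hn
    have h := hpR ⟨n, hn⟩
    exact div_nonneg zero_le_one (by
      have : (((⟨n, hn⟩ : PS W R) : ℕ) : ℝ) = (n : ℝ) := rfl
      rw [this] at h
      linarith)
  have hprodg : ∏ n ∈ PS W R, (1 + g n) ≤ B := by
    have h := (hprod 1 zero_le_one (by push_cast; linarith)).2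
    simp only [one_mul] at h
    rw [← Finset.prod_coe_sort]
    exact h
  have hX2 : Ex μ X₂ ≤ U + 2 * B ^ 2 / w := by
    have h := h9 l g gi P hl (fun p hp => ⟨(hgi p hp).1, (hgi p hp).2.1⟩)
    have e1 : ∏ p ∈ P, (1 + g p) ≤ B :=
      (MA_prod_subset hPPS (fun n => 1 + g n) fun n hn => by
        have := hg1 n hn
        linarith).trans hprodg
    have e2 : ∑ p ∈ P, (g p - gi p) ≤ 2 / w * B := by
      calc ∑ p ∈ P, (g p - gi p) ≤ ∑ p ∈ P, 2 / w * g p :=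
            sum_le_sum fun p hp => (hgi p hp).2.2
        _ = 2 / w * ∑ p ∈ P, g p := by rw [mul_sum]
        _ ≤ 2 / w * B := by
            refine mul_le_mul_of_nonneg_left ?_ (by positivity)
            refine (MA_sum_le P g fun p hp => hg1 p (hPPS hp)).trans e1
    have e3 : 0 ≤ ∑ p ∈ P, (g p - gi p) := sum_nonneg fun p hp => by
      have := (hgi p hp).2.1
      linarith
    have e4 : (∏ p ∈ P, (1 + g p)) * ∑ p ∈ P, (g p - gi p) ≤ B * (2 / w * B) :=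
      mul_le_mul e1 e2 e3 (by linarith)
    rw [hEV]
    have e5 := (le_abs_self _).trans (h.trans e4)
    have e6 : B * (2 / w * B) = 2 * B ^ 2 / w := by ring
    rw [e6] at e5
    linarith
  -- (3) the expectation of X₁
  have hFF : ∀ e, FF (prP W R) ζ (rem2 m m' e) = FF (prP W R) ζ e :=
    h4 (PS W R) k (prP W R) m m' ζ fun σ hσ => (hζ σ hσ).2
  set G : (PS W R → Option (Fin k)) → ℝ := fun e => FF (prP W R) ζ e ^ 2 with hG
  have hX1G : X₁ = fun e => G (rem2 m m' e) * SU (prP W R) l₀ (RLS.PP 1 w) m m' e := by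
    funext e
    simp only [hX₁, hG, hFF]
  set PI : ℝ := ∏ p ∈ PS W ⌊w⌋₊, (1 - 1 / ((p : ℝ) - 1)) with hPI
  have hPIeq : ∏ p ∈ (univ.filter fun p : PS W R => prP W R p ∈ RLS.PP 1 w),
      (1 - 1 / (((prP W R p : ℕ) : ℝ) - 1)) = PI := by
    rw [hPI]
    refine Finset.prod_nbij (fun p => (p : ℕ)) ?_ ?_ ?_ ?_
    · intro p hp
      have h := mem_filter.1 (mem_filter.1 hp).2
      have h' : prP W R p ≤ ⌊w⌋₊ := Nat.lt_succ_iff.1 (mem_range.1 h.1)
      exact mem_PS.2 ⟨h', (hpl p).1, (hpl p).2.1⟩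
    · intro x _ y _ hxy
      exact Subtype.ext hxy
    · intro n hn
      have h := mem_PS.1 (mem_coe.1 hn)
      have hnR : n ∈ PS W R := mem_PS.2 ⟨h.1.trans hwR, h.2⟩
      refine ⟨⟨n, hnR⟩, ?_, rfl⟩
      refine mem_coe.2 (mem_filter.2 ⟨mem_univ _, ?_⟩)
      exact mem_filter.2 ⟨mem_range.2 (by have := h.1; show n < ⌊w⌋₊ + 1; omega), h.2.1, by
        exact_mod_cast h.2.1.one_lt⟩
    · intro p _
      rfl
  have hPI01 : 0 ≤ PI ∧ PI ≤ 1 := by
    have hpp : ∀ p ∈ PS W ⌊w⌋₊, 0 ≤ 1 - 1 / ((p : ℝ) - 1) ∧ 1 - 1 / ((p : ℝ) - 1) ≤ 1 := by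
      intro p hp
      have h := mem_PS.1 hp
      have h13 := hpR ⟨p, mem_PS.2 ⟨h.1.trans hwR, h.2⟩⟩
      have h13' : 4 * (k : ℝ) + 5 ≤ (p : ℝ) := h13
      have e1 : 0 ≤ 1 / ((p : ℝ) - 1) := div_nonneg zero_le_one (by linarith)
      have e2 : 1 / ((p : ℝ) - 1) ≤ 1 := by
        rw [div_le_one (by linarith)]
        linarith
      constructor <;> linarith
    exact ⟨prod_nonneg fun p hp => (hpp p hp).1, prod_le_one (fun p hp => (hpp p hp).1)
      fun p hp => (hpp p hp).2⟩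
  obtain ⟨hQ0, hQ1⟩ := h7 (PS W R) k (prP W R) (a ^ 3) ζ
    (fun p => by have := (hpl p).2.2.2; show 5 ≤ (p : ℕ); omega) (by positivity) hζM
  have hQB : QF (prP W R) ζ ≤ a ^ 6 * B ^ 2 := by
    refine hQ1.trans ?_
    have e3 := hprod ((2 * k + 8 : ℕ) : ℝ) (by positivity) (by push_cast; linarith)
    have e4 : ∏ p : PS W R, (1 + ((2 * k + 8 : ℕ) : ℝ) / (((prP W R p : ℕ) : ℝ) - 1)) =
        ∏ p : PS W R, (1 + ((2 * k + 8 : ℕ) : ℝ) * q p) := by
      refine prod_congr rfl fun p _ => ?_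
      show 1 + ((2 * k + 8 : ℕ) : ℝ) / (((p : ℕ) : ℝ) - 1) =
        1 + ((2 * k + 8 : ℕ) : ℝ) * (1 / (((p : ℕ) : ℝ) - 1))
      rw [mul_one_div]
    rw [e4]
    have e5 := pow_le_pow_left₀ (by linarith) e3.2 2
    calc (a ^ 3) ^ 2 * (∏ p : PS W R, (1 + ((2 * k + 8 : ℕ) : ℝ) * q p)) ^ 2
        ≤ (a ^ 3) ^ 2 * B ^ 2 := mul_le_mul_of_nonneg_left e5 (by positivity)
      _ = a ^ 6 * B ^ 2 := by ring
  have hX1up : Ex μ X₁ ≤ (1 + ep) * PI * QF (prP W R) ζ := by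
    rw [hX1G]
    set g₂ : ℕ → ℝ := fun n => 1 / ((n : ℝ) - k + 1) with hg₂
    have hCE := h3 (PS W R) k (prP W R) μ m m' G l₀ (RLS.PP 1 w) g₂ ep hinj hmm hμ0 hμn0 hep
      (fun e => sq_nonneg _) (fun p => by
        rw [hμn, hμs, hμs, if_pos rfl, if_neg (Ne.symm hmm)]
        have h := hpR p
        have n1 : ((p : ℕ) : ℝ) - 1 ≠ 0 := by
          intro hc
          linarith
        have n2 : ((p : ℕ) : ℝ) - k + 1 ≠ 0 := by
          intro hc
          linarith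
        show 1 / (((p : ℕ) : ℝ) - k + 1) * (1 - ((k : ℝ) - 1) / (((p : ℕ) : ℝ) - 1) + 0 +
          1 / (((p : ℕ) : ℝ) - 1)) = 0 + 1 / (((p : ℕ) : ℝ) - 1)
        field_simp
        ring) (fun Q hQ hQi => hBH.upp Q hQ g₂ fun n hn => by
        obtain ⟨p, -, rfl⟩ := mem_image.1 (hQi hn)
        have h := hpR p
        have n2 : 0 < ((p : ℕ) : ℝ) - k + 1 := by linarith
        have n3 : 0 < ((p : ℕ) : ℝ) := by linarith
        refine ⟨?_, ?_, ?_⟩
        · show 0 ≤ 1 / (((p : ℕ) : ℝ) - k + 1)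
          positivity
        · show 1 / (((p : ℕ) : ℝ) - k + 1) ≤ 1 / 2
          exact one_div_le_one_div_of_le (by norm_num) (by linarith)
        · show 1 / (((p : ℕ) : ℝ) - k + 1) ≤ 4 / ((p : ℕ) : ℝ)
          rw [div_le_div_iff₀ n2 n3]
          linarith)
    refine hCE.trans ?_
    have hFA := h5 (PS W R) k (prP W R) m m' (univ.filter fun p => prP W R p ∈ RLS.PP 1 w) ζ hmm
      (fun p => by
        have := (hpl p).2.2.2
        exact ⟨by show 9 ≤ (p : ℕ); omega, by show 2 * k + 2 ≤ (p : ℕ); omega⟩)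
      (fun σ hσ => (hζ σ hσ).2)
    rw [hPIeq] at hFA
    calc (1 + ep) * Ex (kap μ (univ.filter fun p => prP W R p ∈ RLS.PP 1 w) m m') G
        ≤ (1 + ep) * (PI * QF (prP W R) ζ) := mul_le_mul_of_nonneg_left hFA (by linarith)
      _ = (1 + ep) * PI * QF (prP W R) ζ := by ring
  have hX10 : 0 ≤ Ex μ X₁ := by
    refine MA_Ex_nonneg μ X₁ hμ0 fun e => mul_nonneg (sq_nonneg _) ?_
    exact hBH.pos _ inter_subset_right
  -- (4) the end
  have hXA : XA (prP W R) ζ l₀ l w P m m' = fun e => X₁ e * X₂ e := rfl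
  rw [hXA]
  refine hIN'.trans ?_
  have f1 : Ex μ X₁ * Ex μ X₂ ≤ Ex μ X₁ * (U + 2 * B ^ 2 / w) := mul_le_mul_of_nonneg_left hX2 hX10
  have f2 : Ex μ X₁ * (U + 2 * B ^ 2 / w) ≤
      (1 + ep) * PI * QF (prP W R) ζ * (U + 2 * B ^ 2 / w) :=
    mul_le_mul_of_nonneg_right hX1up (by positivity)
  have f3 : (1 + ep) * PI * QF (prP W R) ζ ≤ 2 * (a ^ 6 * B ^ 2) := by
    have t1 : (1 + ep) * PI ≤ 2 * 1 := mul_le_mul (by linarith) hPI01.2 hPI01.1 (by norm_num)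
    calc (1 + ep) * PI * QF (prP W R) ζ ≤ 2 * 1 * (a ^ 6 * B ^ 2) :=
          mul_le_mul t1 hQB hQ0 (by norm_num)
      _ = 2 * (a ^ 6 * B ^ 2) := by ring
  have f4 : (1 + ep) * PI * QF (prP W R) ζ * (2 * B ^ 2 / w) ≤
      2 * (a ^ 6 * B ^ 2) * (2 * B ^ 2 / w) := mul_le_mul_of_nonneg_right f3 (by positivity)
  have f5 : 2 * (a ^ 6 * B ^ 2) * (2 * B ^ 2 / w) ≤ 4 * (a ^ 6 * B ^ 5) / w := by
    have t1 : B ^ 4 ≤ B ^ 5 := pow_le_pow_right₀ hB0 (by norm_num)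
    have t2 : 4 * (a ^ 6 * B ^ 4) / w ≤ 4 * (a ^ 6 * B ^ 5) / w := by
      apply div_le_div_of_nonneg_right _ hw0.le
      have : a ^ 6 * B ^ 4 ≤ a ^ 6 * B ^ 5 := mul_le_mul_of_nonneg_left t1 (by positivity)
      linarith
    calc 2 * (a ^ 6 * B ^ 2) * (2 * B ^ 2 / w) = 4 * (a ^ 6 * B ^ 4) / w := by ring
      _ ≤ _ := t2
  have f6 : (2 * (k : ℝ) + 4) * (a ^ 6 * B ^ 5) / w =
      2 * k * (a ^ 6 * B ^ 5) / w + 4 * (a ^ 6 * B ^ 5) / w := by ring
  rw [f6]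
  have f7 : (1 + ep) * PI * QF (prP W R) ζ * (U + 2 * B ^ 2 / w) =
      (1 + ep) * PI * QF (prP W R) ζ * U + (1 + ep) * PI * QF (prP W R) ζ * (2 * B ^ 2 / w) := by
    ring
  linarith

theorem MA (h1 : EV_stmt) (h2 : IN_stmt) (h3 : CE_stmt) (h4 : RZ_stmt) (h5 : FA_stmt)
    (h6 : PD_stmt) (h7 : QB_stmt) (h8 : XE_stmt) (h9 : SD_stmt) : MA_stmt := by
  intro k b D₀ W δ ep hk hδ hδ8 hep hep1 hW hD hDW
  obtain ⟨c, hc, hpd⟩ := h6 (36 * k + 8)
  refine ⟨5 * (36 * k + 8) + 7, max (max 4 (Real.log W / δ)) ((2 * k + 4) * c ^ 5), ?_⟩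
  intro a ha R hR ζ m m' l₀ l P U hmm hζM hζ hBH hP hl hU hMU
  have ha4 : 4 ≤ a := (le_max_left _ _).trans ((le_max_left _ _).trans ha)
  have haW : Real.log W / δ ≤ a := (le_max_right _ _).trans ((le_max_left _ _).trans ha)
  have hac : (2 * (k : ℝ) + 4) * c ^ 5 ≤ a := (le_max_right _ _).trans ha
  have hWr : (0 : ℝ) < W := by exact_mod_cast hW
  have hw1 : 1 ≤ Real.exp (δ * a) := Real.one_le_exp (by positivity)
  have hWw : (W : ℝ) ≤ Real.exp (δ * a) := by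
    rw [← Real.log_le_iff_le_exp hWr]
    rw [div_le_iff₀ hδ] at haW
    linarith
  have hwR : ⌊Real.exp (δ * a)⌋₊ ≤ R := by
    rw [hR]
    apply Nat.floor_le_floor
    apply Real.exp_le_exp.2
    nlinarith
  have hPR : ⌊Real.exp (a / 5)⌋₊ ≤ R := by
    rw [hR]
    apply Nat.floor_le_floor
    apply Real.exp_le_exp.2
    linarith
  have hR2 : 2 ≤ R := by
    rw [hR]
    apply Nat.le_floor
    have h1 := Real.add_one_le_exp (a / 4)
    push_cast
    linarith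
  have hlogR : Real.log R ≤ a := by
    have h1 : (R : ℝ) ≤ Real.exp (a / 4) := by
      rw [hR]
      exact Nat.floor_le (Real.exp_pos _).le
    have h2 : (0 : ℝ) < R := by
      have : (2 : ℝ) ≤ R := by exact_mod_cast hR2
      linarith
    have h3 := Real.log_le_log h2 h1
    rw [Real.log_exp] at h3
    linarith
  have hlogR0 : 0 ≤ Real.log R := Real.log_natCast_nonneg R
  have hcore := MA_core h1 h2 h3 h4 h5 h7 h8 h9 hk hep hep1 hW hD hDW (by linarith) hw1 hWw hwR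
    hPR rfl ζ m m' l₀ l P U hmm hζM hζ hBH hP hl hU hMU
  refine hcore.trans (add_le_add le_rfl ?_)
  set B : ℝ := ∏ p : PS W R, (1 + ((36 * k + 8 : ℕ) : ℝ) / (((p : ℕ) : ℝ) - 1)) with hB
  have hB0 : 0 ≤ B := by
    refine prod_nonneg fun p _ => ?_
    have h := (MA_place (R := R) hD hDW p).1.one_lt
    have h' : (1 : ℝ) < ((p : ℕ) : ℝ) := by exact_mod_cast h
    have : 0 ≤ ((36 * k + 8 : ℕ) : ℝ) / (((p : ℕ) : ℝ) - 1) :=
      div_nonneg (Nat.cast_nonneg _) (by linarith)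
    linarith
  have hB1 : B ≤ c * a ^ (36 * k + 8) := by
    refine (hpd W R hR2).trans ?_
    exact mul_le_mul_of_nonneg_left (pow_le_pow_left₀ hlogR0 hlogR _) hc.le
  have hB5 : B ^ 5 ≤ c ^ 5 * a ^ (5 * (36 * k + 8)) := by
    calc B ^ 5 ≤ (c * a ^ (36 * k + 8)) ^ 5 := pow_le_pow_left₀ hB0 hB1 5
      _ = c ^ 5 * a ^ (5 * (36 * k + 8)) := by rw [mul_pow, ← pow_mul, Nat.mul_comm 5]
  have hE : Real.exp (-(δ * a)) = 1 / Real.exp (δ * a) := by
    rw [Real.exp_neg, one_div]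
  rw [hE, mul_one_div]
  apply div_le_div_of_nonneg_right _ (Real.exp_pos _).le
  calc (2 * (k : ℝ) + 4) * (a ^ 6 * B ^ 5)
      ≤ (2 * (k : ℝ) + 4) * (a ^ 6 * (c ^ 5 * a ^ (5 * (36 * k + 8)))) := by
        refine mul_le_mul_of_nonneg_left (mul_le_mul_of_nonneg_left hB5 (by positivity))
          (by positivity)
    _ = ((2 * (k : ℝ) + 4) * c ^ 5) * (a ^ 6 * a ^ (5 * (36 * k + 8))) := by ring
    _ ≤ a * (a ^ 6 * a ^ (5 * (36 * k + 8))) :=
        mul_le_mul_of_nonneg_right hac (by positivity)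
    _ = a ^ (5 * (36 * k + 8) + 7) := by
        rw [← pow_add, ← pow_succ']
        congr 1
        omega

end Pool.Agent.MK
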